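import Mathlib
import Pool.Agent.W411.Cube

/-!
For an abelian group `A`, the subgroup lattice of `A × A × A` embeds into the subspace lattice
of some vector space over some division ring iff `A` is an elementary abelian `p`-group.
In particular the subgroup lattice of the finite group `(Z/4)^3` admits no such embedding.
-/

namespace Pool.Agent.Results.MP_0a2dc5_al.CubeSubgroupLattice

universe u v w

theorem result (A : Type w) [AddCommGroup A] :
    (∃ (D : Type u) (_ : DivisionRing D) (V : Type (max v w)) (_ : AddCommGroup V)
        (_ : Module D V) (f : LatticeHom (AddSubgroup (Fin 3 → A)) (Submodule D V)),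
        Function.Injective f) ↔
    ∃ p : ℕ, p.Prime ∧ ∀ a : A, p • a = 0 :=
  Pool.Agent.W411.Cube.cube_embeds_iff.{u, v, w} A

end Pool.Agent.Results.MP_0a2dc5_al.CubeSubgroupLattice
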